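import Pool.Agent.H.MP_085bfa.D

set_option autoImplicit false

open Set Topology TopologicalSpace

namespace Pool.Agent.Results.MP_e04a0d_gt.Yes

/-- covering dimension at most `n` -/
def DimLE (Z : Type) [TopologicalSpace Z] (n : ℕ) : Prop :=
  ∀ (ι : Type) [Finite ι] (U : ι → Set Z), (∀ i, IsOpen (U i)) → (⋃ i, U i) = Set.univ →
    ∃ (κ : Type) (_ : Finite κ) (V : κ → Set Z),
      (∀ k, IsOpen (V k)) ∧ (⋃ k, V k) = Set.univ ∧ (∀ k, ∃ i, V k ⊆ U i) ∧
      ∀ x, Nat.card {k // x ∈ V k} ≤ n + 1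

theorem result (X : Type) [τ : TopologicalSpace X] [MetrizableSpace X]
    (hc : ∃ Z : ℕ → Set X, (⋃ k, Z k) = univ ∧ ∀ k, DimLE (Z k) 0)
    (hinf : ∀ n, ¬DimLE X n) :
    IsLeast {κ : Cardinal.{0} | ∃ (I : Type) (t : I → TopologicalSpace X), Cardinal.mk I = κ ∧
      (∀ i, @MetrizableSpace X (t i) ∧ Nonempty X ∧ @DimLE X (t i) 0) ∧
      ∀ U : Set X, IsOpen[τ] U ↔ ∀ i, IsOpen[t i] U} Cardinal.aleph0 := by
  have disc : (∀ U : Set X, IsOpen U) → False := fun h => hinf 0 fun ι _ U _ u2 => by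
    choose j hj using fun x => mem_iUnion.1 (u2.ge (mem_univ x))
    exact ⟨ι, inferInstance, fun i => {x | j x = i}, fun _ => h _,
      eq_univ_of_forall fun x => mem_iUnion.2 ⟨j x, rfl⟩, fun i => ⟨i, fun x hx => hx ▸ hj x⟩,
      fun x => Finite.card_le_one_iff_subsingleton.2 ⟨fun a b => Subtype.ext (a.2.symm.trans b.2)⟩⟩
  constructor
  · obtain ⟨Z, z1, z2⟩ := hc
    choose t t1 t2 t3 t4 using fun k => H.MP_085bfa.upper (z2 k)
    refine ⟨ℕ, t, Cardinal.mk_nat, fun k => ⟨t1 k, not_isEmpty_iff.1 fun _ => disc fun U =>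
      isOpen_iff_mem_nhds.2 fun x => isEmptyElim x, t2 k⟩, fun U => ⟨fun h k => t3 k U h,
        fun h => isOpen_iff_mem_nhds.2 fun x hx => ?_⟩⟩
    obtain ⟨k, hk⟩ := mem_iUnion.1 (z1.ge (mem_univ x))
    exact t4 k U (h k) x hk hx
  · rintro _ ⟨I, t, rfl, h1, h2⟩
    by_contra c
    have : Finite I := Cardinal.lt_aleph0_iff_finite.1 (not_le.1 c)
    have := Fintype.ofFinite I
    rcases isEmpty_or_nonempty I with e | e
    · exact disc fun U => (h2 U).2 fun i => isEmptyElim i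
    · let := metrizableSpaceMetric X
      exact hinf _ (H.MP_085bfa.lower t h2 fun i => (h1 i).2.2)

end Pool.Agent.Results.MP_e04a0d_gt.Yes
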